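import Pool.Agent.Helper42.TN.GoalsA

/-!
# Project TN (MP_a41896_nt), packet CARDN: the count of rows and unknowns
-/

set_option autoImplicit false
set_option linter.unusedSectionVars false

namespace Pool.Agent.Helper14.TN

open Pool.Agent.Helper42.TN
open Pool.Agent.Helper77.SGC (N0)
open Pool.Agent.Helper68.VN (Ix Ax)

/-- the number of the multiples of `h0` below `q` -/
theorem L_card (q h0 : ℕ) (hh : 1 ≤ h0) :
    q ≤ (Finset.univ.filter fun l : Fin q => l.val * h0 < q).card * h0 := by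
  set d := (q + h0 - 1) / h0 with hd
  have h1 : q ≤ d * h0 := by
    have h2 := Nat.lt_div_mul_add (a := q + h0 - 1) (b := h0) (by omega)
    rw [← hd] at h2
    omega
  refine h1.trans (Nat.mul_le_mul_right _ ?_)
  have h3 : Finset.range d ⊆
      (Finset.univ.filter fun l : Fin q => l.val * h0 < q).image Fin.val := by
    intro l hl
    rw [Finset.mem_range] at hl
    have h4 : l * h0 < q := by
      have h5 : (l + 1) * h0 ≤ d * h0 := Nat.mul_le_mul_right _ hl
      have h6 : d * h0 ≤ q + h0 - 1 := Nat.div_mul_le_self _ _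
      rw [Nat.add_mul, one_mul] at h5
      omega
    have h7 : l < q := lt_of_le_of_lt (Nat.le_mul_of_pos_right _ hh) h4
    rw [Finset.mem_image]
    exact ⟨⟨l, h7⟩, by simpa using h4, rfl⟩
  have h8 := Finset.card_le_card h3
  rw [Finset.card_range] at h8
  exact h8.trans Finset.card_image_le

/-- the tuples with a bad component -/
theorem rows_bd {n : ℕ} (T : Fin n → Type) [∀ j, Fintype (T j)] (gr : ∀ j, T j → ℕ)
    (k tb bb : Fin n → ℕ) (ht : ∀ j, Fintype.card (T j) ≤ tb j)
    (hb : ∀ j, Nat.card {t : T j // gr j t < k j} ≤ bb j) :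
    Nat.card {t : ∀ j, T j // ∃ j, gr j (t j) < k j} ≤
      ∑ j, bb j * ∏ j' ∈ Finset.univ.erase j, tb j' := by
  classical
  rw [Nat.card_eq_fintype_card, Fintype.card_subtype]
  have h1 : (Finset.univ.filter fun t : ∀ j, T j => ∃ j, gr j (t j) < k j) ⊆
      Finset.univ.biUnion fun j => Fintype.piFinset fun j' =>
        Finset.univ.filter fun x : T j' => j' = j → gr j' x < k j' := by
    intro t ht
    rw [Finset.mem_filter] at ht
    obtain ⟨j, hj⟩ := ht.2
    rw [Finset.mem_biUnion]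
    refine ⟨j, Finset.mem_univ _, ?_⟩
    rw [Fintype.mem_piFinset]
    intro j'
    rw [Finset.mem_filter]
    refine ⟨Finset.mem_univ _, ?_⟩
    rintro rfl
    exact hj
  refine (Finset.card_le_card h1).trans (Finset.card_biUnion_le.trans ?_)
  refine Finset.sum_le_sum fun j _ => ?_
  rw [Fintype.card_piFinset, ← Finset.mul_prod_erase Finset.univ _ (Finset.mem_univ j)]
  refine Nat.mul_le_mul ?_ (Finset.prod_le_prod' fun j' _ => ?_)
  · have h2 := hb j
    rw [Nat.card_eq_fintype_card, Fintype.card_subtype] at h2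
    refine le_trans (le_of_eq ?_) h2
    congr 1
    ext x
    simp
  · exact (Finset.card_le_univ _).trans (ht j')

/-- the number of unknowns -/
theorem unk_bd (σ : Type) [Fintype σ] [DecidableEq σ] (n M h0 : ℕ) (a : σ) (e : Fin n → ℕ)
    (hh : 1 ≤ h0) :
    (M + 1) ^ (n * Fintype.card σ) * ∏ j, (4 ^ e j) ^ (Fintype.card σ - 1) ≤
      Nat.card {α : Ix σ n M 1 e // SupN a h0 α} * h0 ^ (n * (Fintype.card σ - 1)) := by
  classical
  have hm : 1 ≤ Fintype.card σ := Fintype.card_pos_iff.2 ⟨a⟩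
  let S : ∀ j : Fin n, σ → Finset (Fin (4 ^ e j) × Fin (M + 1)) := fun j i =>
    Finset.univ.filter fun p => (i = a → p.1.val = 0) ∧ p.1.val * h0 < 4 ^ e j
  let F : Finset (∀ j : Fin n, Ax σ M (e j)) :=
    Fintype.piFinset fun j => Fintype.piFinset fun i => S j i
  have hF : F.card ≤ Nat.card {α : Ix σ n M 1 e // SupN a h0 α} := by
    rw [← Fintype.card_coe, ← Nat.card_eq_fintype_card]
    refine Nat.card_le_card_of_injective
      (fun x : F => ⟨(x.1, fun _ => 0), ?_⟩) ?_
    · intro j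
      have hx := x.2
      simp only [F, S, Fintype.mem_piFinset, Finset.mem_filter, Finset.mem_univ, true_and] at hx
      exact ⟨(hx j a).1 rfl, fun i => (hx j i).2⟩
    · intro x y hxy
      have h1 := congrArg (fun z => z.1.1) hxy
      exact Subtype.ext h1
  have hS : ∀ j, (M + 1) ^ Fintype.card σ * (4 ^ e j) ^ (Fintype.card σ - 1) ≤
      (∏ i, (S j i).card) * h0 ^ (Fintype.card σ - 1) := by
    intro j
    set q := 4 ^ e j with hq
    set L := (Finset.univ.filter fun l : Fin q => l.val * h0 < q).card with hL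
    have hLq : q ≤ L * h0 := L_card q h0 hh
    have hq0 : 0 < q := by positivity
    have e1 : ∀ i ∈ Finset.univ.erase a, (S j i).card = L * (M + 1) := by
      intro i hi
      have hia : i ≠ a := Finset.ne_of_mem_erase hi
      have e2 : S j i = (Finset.univ.filter fun l : Fin q => l.val * h0 < q) ×ˢ
          (Finset.univ : Finset (Fin (M + 1))) := by
        ext p
        simp [S, hia, hq]
      rw [e2, Finset.card_product, Finset.card_univ, Fintype.card_fin]
    have e3 : M + 1 ≤ (S j a).card := by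
      have e4 : (Finset.univ : Finset (Fin (M + 1))).image (fun y => ((⟨0, hq0⟩ : Fin q), y)) ⊆
          S j a := by
        intro p hp
        rw [Finset.mem_image] at hp
        obtain ⟨y, _, rfl⟩ := hp
        simp only [S, Finset.mem_filter, Finset.mem_univ, true_and]
        simp
      have e5 := Finset.card_le_card e4
      rw [Finset.card_image_of_injective _ (fun y z h => (Prod.mk.inj h).2), Finset.card_univ,
        Fintype.card_fin] at e5
      exact e5
    rw [← Finset.mul_prod_erase Finset.univ _ (Finset.mem_univ a), Finset.prod_congr rfl e1,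
      Finset.prod_const, Finset.card_erase_of_mem (Finset.mem_univ a), Finset.card_univ]
    obtain ⟨m, hm'⟩ : ∃ m, Fintype.card σ = m + 1 := ⟨Fintype.card σ - 1, by omega⟩
    rw [hm', Nat.add_sub_cancel]
    calc (M + 1) ^ (m + 1) * q ^ m ≤ (M + 1) ^ (m + 1) * (L * h0) ^ m := by gcongr
      _ = (M + 1) * (L * (M + 1)) ^ m * h0 ^ m := by
          rw [mul_pow, mul_pow, pow_succ]
          ring
      _ ≤ (S j a).card * (L * (M + 1)) ^ m * h0 ^ m := by gcongr
  have hprod : ∏ j : Fin n, ((M + 1) ^ Fintype.card σ * (4 ^ e j) ^ (Fintype.card σ - 1)) ≤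
      ∏ j : Fin n, ((∏ i, (S j i).card) * h0 ^ (Fintype.card σ - 1)) :=
    Finset.prod_le_prod' fun j _ => hS j
  rw [Finset.prod_mul_distrib, Finset.prod_mul_distrib, Finset.prod_const, Finset.prod_const,
    Finset.card_univ, Fintype.card_fin, ← pow_mul, ← pow_mul, mul_comm (Fintype.card σ) n,
    mul_comm (Fintype.card σ - 1) n] at hprod
  refine hprod.trans (Nat.mul_le_mul_right _ ?_)
  have hFc : F.card = ∏ j, ∏ i, (S j i).card := by
    simp only [F, Fintype.card_piFinset]
  rw [← hFc]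
  exact hF

/-- **CARDN** -/
theorem t_CARDN : CARDN := by
  intro σ _ _ n M k0 c h0 S0 a e T _ gr U _ hn hm hh hT hbad hU hcount
  classical
  obtain ⟨m, hm'⟩ : ∃ m, Fintype.card σ = m + 2 := ⟨Fintype.card σ - 2, by omega⟩
  have hunk := unk_bd σ n M h0 a e hh
  rw [hm'] at hT hbad hcount hunk
  have em1 : m + 2 - 1 = m + 1 := rfl
  have em2 : m + 2 - 2 = m := rfl
  rw [em1] at hT hcount hunk
  rw [em2] at hbad
  obtain ⟨p, hp⟩ : ∃ p, n * (m + 1) = p + 1 :=
    ⟨n * (m + 1) - 1, by have := Nat.mul_le_mul hn (Nat.le_add_left 1 m); omega⟩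
  set B := 2 * M + 2 with hB
  set Q := ∏ j, (4 ^ e j) ^ (m + 1) with hQ
  have hB0 : 0 < B := by omega
  have hN : ∀ j, N0 M (e j) + 1 ≤ 4 ^ e j * B := by
    intro j
    have h1 : 1 ≤ 4 ^ e j := Nat.one_le_pow _ _ (by norm_num)
    unfold N0
    rw [hB]
    nlinarith
  have hrow := rows_bd T gr (fun j => k0 * 4 ^ e j) (fun j => c * (4 ^ e j * B) ^ (m + 1))
    (fun j => c * (k0 * 4 ^ e j) * (4 ^ e j * B) ^ m)
    (fun j => (hT j).trans (Nat.mul_le_mul_left _ (Nat.pow_le_pow_left (hN j) _)))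
    (fun j => (hbad j).trans (Nat.mul_le_mul_left _ (Nat.pow_le_pow_left (hN j) _)))
  have hall : ∏ j : Fin n, (c * (4 ^ e j * B) ^ (m + 1)) = c ^ n * B ^ (p + 1) * Q := by
    rw [Finset.prod_mul_distrib, Finset.prod_const, Finset.card_univ, Fintype.card_fin]
    have h1 : ∀ j : Fin n, (4 ^ e j * B) ^ (m + 1) = (4 ^ e j) ^ (m + 1) * B ^ (m + 1) :=
      fun j => mul_pow _ _ _
    simp only [h1]
    rw [Finset.prod_mul_distrib, Finset.prod_const, Finset.card_univ, Fintype.card_fin, ← pow_mul,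
      mul_comm (m + 1) n, hp]
    ring
  have hterm : ∀ j : Fin n, c * (k0 * 4 ^ e j) * (4 ^ e j * B) ^ m *
      ∏ j' ∈ Finset.univ.erase j, (c * (4 ^ e j' * B) ^ (m + 1)) = k0 * (c ^ n * B ^ p * Q) := by
    intro j
    refine Nat.eq_of_mul_eq_mul_right hB0 ?_
    have h1 : c * (k0 * 4 ^ e j) * (4 ^ e j * B) ^ m *
        (∏ j' ∈ Finset.univ.erase j, (c * (4 ^ e j' * B) ^ (m + 1))) * B =
        k0 * ((c * (4 ^ e j * B) ^ (m + 1)) *
          ∏ j' ∈ Finset.univ.erase j, (c * (4 ^ e j' * B) ^ (m + 1))) := by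
      ring
    rw [h1, Finset.mul_prod_erase Finset.univ (fun j' => c * (4 ^ e j' * B) ^ (m + 1))
      (Finset.mem_univ j), hall]
    ring
  have hrow2 : Nat.card {t : ∀ j, T j // ∃ j, gr j (t j) < k0 * 4 ^ e j} ≤
      n * (k0 * (c ^ n * B ^ p * Q)) := by
    refine hrow.trans (le_of_eq ?_)
    rw [Finset.sum_congr rfl fun j _ => hterm j, Finset.sum_const, Finset.card_univ,
      Fintype.card_fin, smul_eq_mul]
  have hR : Nat.card (RowsN σ n k0 e T gr U) ≤
      4 ^ (n * (m + 2)) * (n * (k0 * (c ^ n * B ^ p * Q))) * S0 := by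
    rw [RowsN, Nat.card_prod, Nat.card_prod, Nat.card_prod]
    have c1 : Nat.card (Fin n → σ → Bool) = 2 ^ (n * (m + 2)) := by
      rw [Nat.card_eq_fintype_card, Fintype.card_fun, Fintype.card_fun, Fintype.card_bool,
        Fintype.card_fin, hm', ← pow_mul, mul_comm]
    have c2 : Nat.card (Fin n → σ → Fin 2) = 2 ^ (n * (m + 2)) := by
      rw [Nat.card_eq_fintype_card, Fintype.card_fun, Fintype.card_fun, Fintype.card_fin,
        Fintype.card_fin, hm', ← pow_mul, mul_comm]
    have c3 : Nat.card U ≤ S0 := by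
      rw [Nat.card_eq_fintype_card]
      exact hU
    rw [c1, c2]
    calc 2 ^ (n * (m + 2)) * (2 ^ (n * (m + 2)) *
          (Nat.card {t : ∀ j, T j // ∃ j, gr j (t j) < k0 * 4 ^ e j} * Nat.card U)) ≤
        2 ^ (n * (m + 2)) * (2 ^ (n * (m + 2)) *
          ((n * (k0 * (c ^ n * B ^ p * Q))) * S0)) := by gcongr
      _ = (2 * 2) ^ (n * (m + 2)) * (n * (k0 * (c ^ n * B ^ p * Q))) * S0 := by
          rw [mul_pow]
          ring
      _ = 4 ^ (n * (m + 2)) * (n * (k0 * (c ^ n * B ^ p * Q))) * S0 := by norm_num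
  have hh0 : 0 < h0 ^ (n * (m + 1)) := by positivity
  refine Nat.le_of_mul_le_mul_right ?_ hh0
  rw [hp] at hcount hunk ⊢
  rw [Nat.add_sub_cancel] at hcount
  calc 2 * Nat.card (RowsN σ n k0 e T gr U) * h0 ^ (p + 1) ≤
      2 * (4 ^ (n * (m + 2)) * (n * (k0 * (c ^ n * B ^ p * Q))) * S0) * h0 ^ (p + 1) := by gcongr
    _ = (2 * 4 ^ (n * (m + 2)) * n * c ^ n * k0 * B ^ p * S0 * h0 ^ (p + 1)) * Q := by ring
    _ ≤ (M + 1) ^ (n * (m + 2)) * Q := Nat.mul_le_mul_right _ hcount
    _ ≤ _ := hunk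

end Pool.Agent.Helper14.TN
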